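import Mathlib
import Pool.Agent.X178.SF.Core

/-!
# Generic ideals in the square-free algebra: the expected Hilbert series fails

`S(V_n) = K[x_1, …, x_n]/(x_1², …, x_n²)`.  For every infinite field `K`, two generic linear forms
do not have the expected Hilbert series for `n = 7, 9, 11` and for all `n ≥ 13`.
-/

namespace Pool.Agent.Results.MP_3acc10_al.TwoLinearForms

open MvPolynomial Pool.Agent.X178.SF

/-- Index set of the coefficients of a sequence of `r` square-free forms of degrees `d j` in `n`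
variables: pairs `(j, T)` with `T` a set of `d j` variables. -/
abbrev Coef (n r : ℕ) (d : Fin r → ℕ) : Type :=
  (j : Fin r) × {T : Finset (Fin n) // T.card = d j}

/-- The `j`-th form with coefficient vector `c`: the sum of `c (j, T) ∏_{i ∈ T} x_i`. -/
noncomputable def form {K : Type*} [Field K] {n r : ℕ} {d : Fin r → ℕ} (c : Coef n r d → K)
    (j : Fin r) : MvPolynomial (Fin n) K :=
  ∑ T : {T : Finset (Fin n) // T.card = d j}, C (c ⟨j, T⟩) * ∏ i ∈ T.1, X i

/-- The ideal `(x_1², …, x_n², f_1, …, f_r)` of `K[x_1, …, x_n]`. -/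
noncomputable def relIdeal {K : Type*} [Field K] {n r : ℕ} {d : Fin r → ℕ} (c : Coef n r d → K) :
    Ideal (MvPolynomial (Fin n) K) :=
  Ideal.span (Set.range (fun i : Fin n => (X i : MvPolynomial (Fin n) K) ^ 2) ∪
    Set.range (form c))

/-- The dimension over `K` of the degree `i` part of `S(V_n)/(f_1, …, f_r)`, i.e. of the image of
the forms of degree `i` in `K[x_1, …, x_n]/(x_1², …, x_n², f_1, …, f_r)`. -/
noncomputable def hilb {K : Type*} [Field K] {n r : ℕ} {d : Fin r → ℕ} (c : Coef n r d → K)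
    (i : ℕ) : ℕ :=
  Module.finrank K (Submodule.map (Ideal.Quotient.mkₐ K (relIdeal c)).toLinearMap
    (homogeneousSubmodule (Fin n) K i))

/-- The coefficient of `t^i` in `(1 + t)^n ∏_j (1 - t^{d_j})`. -/
noncomputable def expCoeff (n : ℕ) {r : ℕ} (d : Fin r → ℕ) (i : ℕ) : ℤ :=
  ((1 + Polynomial.X) ^ n * ∏ j, (1 - Polynomial.X ^ d j) : Polynomial ℤ).coeff i

open Classical in
/-- The coefficient of `t^i` in the series truncated at its first nonpositive coefficient. -/
noncomputable def truncCoeff (n : ℕ) {r : ℕ} (d : Fin r → ℕ) (i : ℕ) : ℤ :=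
  if ∀ l ≤ i, 0 < expCoeff n d l then expCoeff n d i else 0

/-- The assertion of the question for `K`, `n` and `d_1, …, d_r`: on a nonempty basic Zariski-open
set of coefficient vectors the Hilbert series of the quotient is the expected one. -/
def ExpectedSeries (K : Type*) [Field K] (n r : ℕ) (d : Fin r → ℕ) : Prop :=
  ∃ P : MvPolynomial (Coef n r d) K, P ≠ 0 ∧
    ∀ c : Coef n r d → K, eval c P ≠ 0 → ∀ i, (hilb c i : ℤ) = truncCoeff n d i

section
variable {K : Type*} [Field K] {n : ℕ}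

theorem form_eq (c : Coef n 2 (fun _ => 1) → K) (j : Fin 2) :
    form c j = ∑ i, C (c ⟨j, ⟨{i}, Finset.card_singleton i⟩⟩) * X i := by
  symm
  unfold form
  refine Fintype.sum_bijective
    (fun i : Fin n => (⟨{i}, Finset.card_singleton i⟩ : {T : Finset (Fin n) // T.card = 1}))
    ⟨?_, ?_⟩ _ _ ?_
  · intro i i' h
    simpa using congrArg Subtype.val h
  · rintro ⟨T, hT⟩
    obtain ⟨i, rfl⟩ := Finset.card_eq_one.mp hT
    exact ⟨i, rfl⟩
  · intro i
    simp

theorem relIdeal_le (c : Coef n 2 (fun _ => 1) → K) :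
    relIdeal c ≤ Ideal.span (Set.range (fun i : Fin n => (X i : MvPolynomial (Fin n) K) ^ 2) ∪
      {∑ i, C (c ⟨0, ⟨{i}, Finset.card_singleton i⟩⟩) * X i,
        ∑ i, C (c ⟨1, ⟨{i}, Finset.card_singleton i⟩⟩) * X i}) := by
  refine Ideal.span_mono ?_
  rintro x (hx | ⟨j, rfl⟩)
  · exact Or.inl hx
  · right
    fin_cases j
    · left; exact form_eq c 0
    · right; exact form_eq c 1

/-- For `2m < n` the degree `m` part of the quotient by two generic linear forms is nonzero. -/
theorem degree_ne_zero [Infinite K] (m : ℕ) (hm : 2 * m < n) :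
    ∃ Φ : MvPolynomial (Coef n 2 (fun _ => 1)) K, Φ ≠ 0 ∧
      ∀ c : Coef n 2 (fun _ => 1) → K, eval c Φ ≠ 0 → 1 ≤ hilb c m := by
  classical
  set q := n - m with hqdef
  have hq : m + 1 ≤ q := by omega
  have hn : m + q = n := by omega
  let e : Fin m ⊕ Fin q ≃ Fin n := finSumFinEquiv.trans (finCongr hn)
  let T0 : Finset (Fin n) := Finset.univ.image fun j : Fin m => e (Sum.inl j)
  have hT0 : T0.card = m := by
    have : T0 = Finset.univ.image (e ∘ Sum.inl) := rfl
    rw [this, Finset.card_image_of_injective _ (e.injective.comp Sum.inl_injective)]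
    simp
  let A : Fin n → MvPolynomial (Coef n 2 (fun _ => 1)) K :=
    fun i => X ⟨0, ⟨{i}, Finset.card_singleton i⟩⟩
  let B : Fin n → MvPolynomial (Coef n 2 (fun _ => 1)) K :=
    fun i => X ⟨1, ⟨{i}, Finset.card_singleton i⟩⟩
  have hev : ∀ c : Coef n 2 (fun _ => 1) → K, eval c (phi e A B T0) =
      phi e (fun i => c ⟨0, ⟨{i}, Finset.card_singleton i⟩⟩)
        (fun i => c ⟨1, ⟨{i}, Finset.card_singleton i⟩⟩) T0 := by
    intro c
    rw [phi, phi, RingHom.map_det]
    congr 1
    ext p r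
    simp only [RingHom.mapMatrix_apply, Matrix.map_apply, MT, Matrix.of_apply]
    split_ifs
    · rcases r with r | r <;> simp [rowU, A, B]
    · rcases r with r | r <;> simp [rowW, A, B]
  refine ⟨phi e A B T0, ?_, ?_⟩
  · intro h0
    let t : Fin n → K := fun i => Infinite.natEmbedding K i
    have ht : Function.Injective t := fun i j h => Fin.ext ((Infinite.natEmbedding K).injective h)
    let c0 : Coef n 2 (fun _ => 1) → K := fun x => if x.1 = 0 then ∑ i ∈ x.2.1, t i else 1
    have h1 := hev c0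
    rw [h0, map_zero] at h1
    have h2 : (fun i : Fin n => c0 ⟨0, ⟨{i}, Finset.card_singleton i⟩⟩) = t := by
      funext i; simp [c0]
    have h3 : (fun i : Fin n => c0 ⟨1, ⟨{i}, Finset.card_singleton i⟩⟩) = fun _ => (1 : K) := by
      funext i; simp [c0]
    rw [h2, h3] at h1
    exact phi_ne_zero e hq t ht h1.symm
  · intro c hc
    rw [hev c] at hc
    let μ : Fin n →₀ ℕ := ∑ i ∈ T0, Finsupp.single i 1
    have hμ : ∀ j, μ j = if j ∈ T0 then 1 else 0 := by
      intro j
      simp [μ, Finsupp.finsetSum_apply, Finsupp.single_apply]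
    have hsupp : μ.support = T0 := by
      ext j
      simp [Finsupp.mem_support_iff, hμ]
    have hdeg : μ.degree = m := by
      simp only [μ, map_sum, Finsupp.degree_single]
      simp [hT0]
    have hmem : (monomial μ (1 : K)) ∈ homogeneousSubmodule (Fin n) K m :=
      isHomogeneous_monomial _ hdeg
    have hne : Ideal.Quotient.mkₐ K (relIdeal c) (monomial μ (1 : K)) ≠ 0 := by
      intro h0
      have h1 : monomial μ (1 : K) ∈ relIdeal c := by
        rw [Ideal.Quotient.mkₐ_eq_mk] at h0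
        exact Ideal.Quotient.eq_zero_iff_mem.mp h0
      have h2 := Lam_zero_of_mem e _ _ hq _ (relIdeal_le c h1)
      rw [Lam_monomial, one_mul, gfun, if_pos, hsupp] at h2
      · exact hc h2
      · refine ⟨fun i => ?_, by rw [hsupp, hT0]⟩
        rw [hμ]; split_ifs <;> omega
    have hfin : Module.Finite K (Submodule.map (Ideal.Quotient.mkₐ K (relIdeal c)).toLinearMap
        (homogeneousSubmodule (Fin n) K m)) :=
      Module.Finite.iff_fg.mpr ((homogeneousSubmodule_fg (Fin n) K m).map _)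
    unfold hilb
    have : 0 < Module.finrank K (Submodule.map (Ideal.Quotient.mkₐ K (relIdeal c)).toLinearMap
        (homogeneousSubmodule (Fin n) K m)) := by
      rw [Module.finrank_pos_iff_exists_ne_zero]
      refine ⟨⟨_, Submodule.mem_map_of_mem hmem⟩, ?_⟩
      intro h
      exact hne (congrArg Subtype.val h)
    exact this

theorem expCoeff_formula (n k : ℕ) :
    expCoeff n (fun _ : Fin 2 => 1) (k + 2) =
      (n.choose (k + 2) : ℤ) - 2 * n.choose (k + 1) + n.choose k := by
  unfold expCoeff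
  have h : ((1 + Polynomial.X) ^ n * ∏ j : Fin 2, (1 - Polynomial.X ^ (1 : ℕ)) : Polynomial ℤ) =
      (1 + Polynomial.X) ^ n - (2 : ℤ) • ((1 + Polynomial.X) ^ n * Polynomial.X) +
        (1 + Polynomial.X) ^ n * Polynomial.X ^ 2 := by
    simp only [Fin.prod_univ_two, pow_one, zsmul_eq_mul, Int.cast_ofNat]
    ring
  have h' : ((1 + Polynomial.X) ^ n * ∏ j : Fin 2, (1 - Polynomial.X ^ ((fun _ : Fin 2 => 1) j)) :
      Polynomial ℤ) = ((1 + Polynomial.X) ^ n * ∏ j : Fin 2, (1 - Polynomial.X ^ (1 : ℕ))) := rfl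
  rw [h', h]
  simp only [Polynomial.coeff_add, Polynomial.coeff_sub, Polynomial.coeff_smul,
    Polynomial.coeff_mul_X, Polynomial.coeff_mul_X_pow, Polynomial.coeff_one_add_X_pow, smul_eq_mul]

theorem expCoeff_nonpos (k s : ℕ) (h : (s + 1) * (s + 2) ≤ 2 * (k + 2)) :
    expCoeff (2 * (k + 2) + s) (fun _ : Fin 2 => 1) (k + 2) ≤ 0 := by
  rw [expCoeff_formula]
  set n := 2 * (k + 2) + s with hn
  have h1 : (n.choose (k + 1) : ℤ) * (k + 1) = n.choose k * (k + 4 + s) := by
    have := Nat.choose_succ_right_eq n k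
    have h3 : n - k = k + 4 + s := by omega
    rw [h3] at this
    exact_mod_cast this
  have h2 : (n.choose (k + 2) : ℤ) * (k + 2) = n.choose (k + 1) * (k + 3 + s) := by
    have := Nat.choose_succ_right_eq n (k + 1)
    have h3 : n - (k + 1) = k + 3 + s := by omega
    rw [h3] at this
    exact_mod_cast this
  have hA : (0 : ℤ) ≤ n.choose k := by positivity
  have h' : ((s : ℤ) + 1) * (s + 2) ≤ 2 * (k + 2) := by exact_mod_cast h
  have h5 : ((n.choose (k + 2) : ℤ) - 2 * n.choose (k + 1) + n.choose k) * ((k + 1) * (k + 2)) =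
      n.choose k * ((s + 1) * (s + 2) - 2 * (k + 2)) := by
    have e1 : (n.choose (k + 2) : ℤ) * ((k + 1) * (k + 2)) =
        n.choose k * (k + 4 + s) * (k + 3 + s) := by
      calc (n.choose (k + 2) : ℤ) * ((k + 1) * (k + 2))
          = ((n.choose (k + 2) : ℤ) * (k + 2)) * (k + 1) := by ring
        _ = (n.choose (k + 1) * (k + 1)) * (k + 3 + s) := by rw [h2]; ring
        _ = _ := by rw [h1]
    have e2 : (n.choose (k + 1) : ℤ) * ((k + 1) * (k + 2)) =
        n.choose k * (k + 4 + s) * (k + 2) := by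
      calc (n.choose (k + 1) : ℤ) * ((k + 1) * (k + 2))
          = ((n.choose (k + 1) : ℤ) * (k + 1)) * (k + 2) := by ring
        _ = _ := by rw [h1]
    linear_combination e1 - 2 * e2
  have h6 : ((n.choose (k + 2) : ℤ) - 2 * n.choose (k + 1) + n.choose k) * ((k + 1) * (k + 2)) ≤ 0 := by
    rw [h5]
    exact mul_nonpos_of_nonneg_of_nonpos hA (by linarith)
  have hpos : (0 : ℤ) < (k + 1) * (k + 2) := by positivity
  by_contra hcon
  push Not at hcon
  exact absurd h6 (not_le.mpr (mul_pos hcon hpos))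

theorem not_expected [Infinite K] (hn : n = 7 ∨ n = 9 ∨ n = 11 ∨ 13 ≤ n) :
    ¬ ExpectedSeries K n 2 (fun _ => 1) := by
  rintro ⟨P, hP, hc⟩
  obtain ⟨k, s, hns, hks⟩ : ∃ k s, n = 2 * (k + 2) + s ∧ 1 ≤ s ∧ (s + 1) * (s + 2) ≤ 2 * (k + 2) := by
    rcases Nat.even_or_odd' n with ⟨l, hl | hl⟩
    · exact ⟨l - 3, 2, by omega, by norm_num, by omega⟩
    · exact ⟨l - 2, 1, by omega, le_rfl, by omega⟩
  obtain ⟨Φ, hΦ, hh⟩ := degree_ne_zero (K := K) (n := n) (k + 2) (by omega)
  have hne : P * Φ ≠ 0 := mul_ne_zero hP hΦ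
  obtain ⟨c, hcc⟩ : ∃ c, eval c (P * Φ) ≠ 0 := by
    by_contra hall
    push Not at hall
    exact hne (MvPolynomial.funext fun c => by simpa using hall c)
  rw [map_mul] at hcc
  have h1 := hc c (left_ne_zero_of_mul hcc) (k + 2)
  have h2 := hh c (right_ne_zero_of_mul hcc)
  have h3 : truncCoeff n (fun _ : Fin 2 => 1) (k + 2) = 0 := by
    unfold truncCoeff
    rw [if_neg]
    intro hall
    have := hall (k + 2) le_rfl
    rw [hns] at this
    exact absurd this (not_lt.mpr (expCoeff_nonpos k s hks.2))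
  rw [h3] at h1
  omega

end

/-- **Main result.** Let `K` be any infinite field.
(1) If `2m < n`, the quotient of `S(V_n)` by two generic linear forms is nonzero in degree `m`.
(2) If `n ∈ {7, 9, 11}` or `n ≥ 13`, the Hilbert series of the quotient of `S(V_n)` by two generic
linear forms is not the expected one.
(3) Hence the assertion of the question is false over `K`. -/
theorem result (K : Type*) [Field K] [Infinite K] :
    (∀ n m : ℕ, 2 * m < n → ∃ Φ : MvPolynomial (Coef n 2 (fun _ => 1)) K, Φ ≠ 0 ∧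
      ∀ c : Coef n 2 (fun _ => 1) → K, eval c Φ ≠ 0 → 1 ≤ hilb c m) ∧
    (∀ n : ℕ, (n = 7 ∨ n = 9 ∨ n = 11 ∨ 13 ≤ n) → ¬ ExpectedSeries K n 2 (fun _ => 1)) ∧
    ¬ (∀ (n r : ℕ) (d : Fin r → ℕ), 1 ≤ n → 1 ≤ r → (∀ j, 1 ≤ d j) → ExpectedSeries K n r d) :=
  ⟨fun _ m hm => degree_ne_zero m hm, fun _ hn => not_expected hn,
    fun h => not_expected (K := K) (n := 7) (Or.inl rfl) (h 7 2 _ (by norm_num) (by norm_num)
      (fun _ => le_rfl))⟩

end Pool.Agent.Results.MP_3acc10_al.TwoLinearForms
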